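import Pool.Agent.Helper96.SB.Lin

/-!
# Cyclotomic twists: `b ^ φ(m) Φ_m (a X / b)`
-/

set_option autoImplicit false

namespace Pool.Agent.Helper96.SB

open Polynomial Filter

/-- `σ(S) = ∑_{p ∈ S} m / p` -/
def sg (m : ℕ) (S : Finset ℕ) : ℕ := ∑ p ∈ S, m / p

lemma sg_split {m : ℕ} (hm : m ≠ 0) {S S' : Finset ℕ} (hS : S ⊆ m.primeFactors)
    (hS' : S' ⊆ m.primeFactors) {n : ℕ} (h : m ∣ n + sg m S) (h' : m ∣ n + sg m S') : S ⊆ S' := by
  intro p hp
  by_contra hp'
  have hpp : p.Prime := Nat.prime_of_mem_primeFactors (hS hp)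
  have hpm : p ∣ m := Nat.dvd_of_mem_primeFactors (hS hp)
  set v := m.factorization p with hv
  have hvm : p ^ v ∣ m := Nat.ordProj_dvd m p
  have hq : ∀ q ∈ m.primeFactors, q ≠ p → p ^ v ∣ m / q := by
    intro q hq hqp
    have hqq : q.Prime := Nat.prime_of_mem_primeFactors hq
    have hqm : q ∣ m := Nat.dvd_of_mem_primeFactors hq
    have hc : Nat.Coprime (p ^ v) q :=
      Nat.Coprime.pow_left _ ((Nat.coprime_primes hpp hqq).2 hqp.symm)
    refine hc.dvd_of_dvd_mul_right ?_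
    rw [Nat.div_mul_cancel hqm]
    exact hvm
  have h1 : p ^ v ∣ sg m S' := Finset.dvd_sum fun q hq' => hq q (hS' hq') fun e => hp' (e ▸ hq')
  have h2 : p ^ v ∣ ∑ q ∈ S.erase p, m / q := Finset.dvd_sum fun q hq' =>
    hq q (hS (Finset.mem_of_mem_erase hq')) (Finset.ne_of_mem_erase hq')
  have h3 : sg m S = m / p + ∑ q ∈ S.erase p, m / q := by
    rw [sg, Finset.add_sum_erase S (fun q => m / q) hp]
  have h4 : p ^ v ∣ n := (Nat.dvd_add_left h1).1 (hvm.trans h')
  have h5 : p ^ v ∣ sg m S := (Nat.dvd_add_right h4).1 (hvm.trans h)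
  have h6 : p ^ v ∣ m / p := by
    rw [h3] at h5
    exact (Nat.dvd_add_left h2).1 h5
  have h7 : p ^ (v + 1) ∣ m := by
    rw [pow_succ]
    have := Nat.mul_dvd_mul h6 (dvd_refl p)
    rwa [Nat.div_mul_cancel hpm] at this
  exact Nat.pow_succ_factorization_not_dvd hm hpp h7

/-- the coefficients: `c n = ∑_S (-1)^|S| [m ∣ n + σ(S)]` -/
noncomputable def cc (m n : ℕ) : ℤ :=
  ∑ S ∈ m.primeFactors.powerset, if m ∣ n + sg m S then (-1) ^ S.card else 0

lemma cc_unit {m : ℕ} (hm : m ≠ 0) (n : ℕ) : cc m n = 0 ∨ cc m n = 1 ∨ cc m n = -1 := by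
  by_cases h : ∃ S ∈ m.primeFactors.powerset, m ∣ n + sg m S
  · obtain ⟨S, hS, h1⟩ := h
    right
    have : cc m n = (-1) ^ S.card := by
      rw [cc, Finset.sum_eq_single S, if_pos h1]
      · intro T hT hne
        rw [if_neg]
        intro h2
        have hS' := Finset.mem_powerset.1 hS
        have hT' := Finset.mem_powerset.1 hT
        exact hne (Finset.Subset.antisymm (sg_split hm hT' hS' h2 h1) (sg_split hm hS' hT' h1 h2))
      · intro hc
        exact absurd hS hc
    rw [this]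
    exact neg_one_pow_eq_or ℤ _
  · left
    push Not at h
    rw [cc, Finset.sum_eq_zero]
    intro S hS
    rw [if_neg (h S hS)]

lemma cc_mul {m : ℕ} (hm : m ≠ 0) (j : ℕ) : cc m (m * j) = 1 := by
  rw [cc, Finset.sum_eq_single ∅]
  · rw [if_pos]
    · simp
    · simp [sg]
  · intro T hT hne
    rw [if_neg]
    intro h2
    have h1 : m ∣ m * j + sg m ∅ := by simp [sg]
    exact hne (Finset.subset_empty.1
      (sg_split hm (Finset.mem_powerset.1 hT) (Finset.empty_subset _) h2 h1))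
  · intro hc
    exact absurd (Finset.empty_mem_powerset _) hc

/-- the weights -/
noncomputable def Gam (m : ℕ) (w : ℂ) : ℂ := (m : ℂ)⁻¹ * ∏ p ∈ m.primeFactors, (1 - w ^ (m / p))

lemma Gam_conj (m : ℕ) (w : ℂ) : Gam m (starRingEnd ℂ w) = starRingEnd ℂ (Gam m w) := by
  unfold Gam
  rw [map_mul, map_inv₀, map_natCast, map_prod]
  congr 1
  refine Finset.prod_congr rfl fun p _ => ?_
  rw [map_sub, map_one, map_pow]

lemma root_sum {m : ℕ} (hm : m ≠ 0) (e : ℕ) :
    ∑ w ∈ nthRootsFinset m (1 : ℂ), w ^ e = if m ∣ e then (m : ℂ) else 0 := by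
  have hm0 : 0 < m := Nat.pos_of_ne_zero hm
  have hprim := Complex.isPrimitiveRoot_exp m hm
  set ζ : ℂ := Complex.exp (2 * Real.pi * Complex.I / m) with hζ
  have hζ0 : ζ ≠ 0 := Complex.exp_ne_zero _
  split_ifs with h
  · obtain ⟨f, rfl⟩ := h
    rw [Finset.sum_congr rfl (g := fun _ => (1 : ℂ)), Finset.sum_const, hprim.card_nthRootsFinset,
      nsmul_eq_mul, mul_one]
    intro w hw
    rw [mem_nthRootsFinset hm0] at hw
    rw [pow_mul, hw, one_pow]
  · have e1 : ∑ w ∈ nthRootsFinset m (1 : ℂ), w ^ e =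
        ∑ w ∈ nthRootsFinset m (1 : ℂ), (ζ * w) ^ e := by
      symm
      refine Finset.sum_nbij' (fun β => ζ * β) (fun β => ζ⁻¹ * β) ?_ ?_ ?_ ?_ ?_
      · intro β hβ
        rw [mem_nthRootsFinset hm0] at hβ ⊢
        rw [mul_pow, hprim.pow_eq_one, one_mul, hβ]
      · intro β hβ
        rw [mem_nthRootsFinset hm0] at hβ ⊢
        rw [mul_pow, inv_pow, hprim.pow_eq_one, inv_one, one_mul, hβ]
      · intro β _
        rw [← mul_assoc, inv_mul_cancel₀ hζ0, one_mul]
      · intro β _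
        rw [← mul_assoc, mul_inv_cancel₀ hζ0, one_mul]
      · intro β _
        rfl
    have e2 : ∑ w ∈ nthRootsFinset m (1 : ℂ), (ζ * w) ^ e =
        ζ ^ e * ∑ w ∈ nthRootsFinset m (1 : ℂ), w ^ e := by
      rw [Finset.mul_sum]
      exact Finset.sum_congr rfl fun β _ => mul_pow _ _ _
    have h1 : ζ ^ e ≠ 1 := fun h' => h ((hprim.pow_eq_one_iff_dvd e).1 h')
    have h2 : (1 - ζ ^ e) * ∑ w ∈ nthRootsFinset m (1 : ℂ), w ^ e = 0 := by
      rw [sub_mul, one_mul, ← e2, ← e1, sub_self]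
    rcases mul_eq_zero.1 h2 with h3 | h3
    · exact absurd (sub_eq_zero.1 h3).symm h1
    · exact h3

lemma Gam_zero {m : ℕ} (hm : m ≠ 0) {w : ℂ} (hw : w ^ m = 1) (hn : ¬ IsPrimitiveRoot w m) :
    Gam m w = 0 := by
  have : ∃ p, p.Prime ∧ p ∣ m ∧ w ^ (m / p) = 1 := by
    by_contra hcon
    push Not at hcon
    exact hn (IsPrimitiveRoot.iff_orderOf.2
      (orderOf_eq_of_pow_and_pow_div_prime (Nat.pos_of_ne_zero hm) hw hcon))
  obtain ⟨p, hp, hpm, h1⟩ := this
  rw [Gam, Finset.prod_eq_zero (i := p) (Nat.mem_primeFactors.2 ⟨hp, hpm, hm⟩), mul_zero]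
  rw [h1, sub_self]

lemma Gam_sum {m : ℕ} (hm : m ≠ 0) (n : ℕ) :
    ∑ w ∈ primitiveRoots m ℂ, Gam m w * w ^ n = (cc m n : ℂ) := by
  have hm0 : 0 < m := Nat.pos_of_ne_zero hm
  have hmC : (m : ℂ) ≠ 0 := by exact_mod_cast hm
  have e1 : ∑ w ∈ primitiveRoots m ℂ, Gam m w * w ^ n =
      ∑ w ∈ nthRootsFinset m (1 : ℂ), Gam m w * w ^ n := by
    refine Finset.sum_subset ?_ ?_
    · intro w hw
      rw [mem_nthRootsFinset hm0]
      exact ((mem_primitiveRoots hm0).1 hw).pow_eq_one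
    · intro w hw hw'
      rw [mem_nthRootsFinset hm0] at hw
      rw [Gam_zero hm hw (fun h => hw' ((mem_primitiveRoots hm0).2 h)), zero_mul]
  have e2 : ∀ w : ℂ, Gam m w * w ^ n =
      ∑ S ∈ m.primeFactors.powerset, (m : ℂ)⁻¹ * (-1) ^ S.card * w ^ (n + sg m S) := by
    intro w
    have : ∏ p ∈ m.primeFactors, (1 - w ^ (m / p)) =
        ∑ S ∈ m.primeFactors.powerset, (-1) ^ S.card * w ^ sg m S := by
      have h := Finset.prod_add (fun p => -w ^ (m / p)) (fun _ => (1 : ℂ)) m.primeFactors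
      have h' : ∏ p ∈ m.primeFactors, (1 - w ^ (m / p)) =
          ∏ p ∈ m.primeFactors, (-w ^ (m / p) + 1) :=
        Finset.prod_congr rfl fun p _ => by ring
      rw [h', h]
      refine Finset.sum_congr rfl fun S _ => ?_
      rw [Finset.prod_const_one, mul_one, Finset.prod_neg, sg, Finset.prod_pow_eq_pow_sum]
    rw [Gam, this, Finset.mul_sum, Finset.sum_mul]
    refine Finset.sum_congr rfl fun S _ => ?_
    rw [pow_add]
    ring
  rw [e1, Finset.sum_congr rfl fun w _ => e2 w, Finset.sum_comm, cc, Int.cast_sum]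
  refine Finset.sum_congr rfl fun S _ => ?_
  rw [← Finset.mul_sum, root_sum hm]
  split_ifs with h
  · push_cast
    field_simp
  · simp

/-- `b ^ φ(m) Φ_m (a X / b)` -/
noncomputable def cyc (m : ℕ) (a b : ℤ) : ℤ[X] := ((cyclotomic m ℤ).scaleRoots b).comp (C a * X)

lemma mem_cyc {m : ℕ} (hm : m ≠ 0) (a b : ℤ) (ha : 1 ≤ a) (hab : a < |b|) (z : ℂ) :
    z ∈ bigRoots (cyc m a b) ↔ IsPrimitiveRoot ((a : ℂ) * z / b) m := by
  have ha' : (a : ℂ) ≠ 0 := by
    have : a ≠ 0 := by omega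
    exact_mod_cast this
  have hb0 : b ≠ 0 := by
    rintro rfl
    rw [abs_zero] at hab
    omega
  have hb' : (b : ℂ) ≠ 0 := by exact_mod_cast hb0
  have : NeZero (m : ℂ) := ⟨by exact_mod_cast hm⟩
  have hev : ∀ z : ℂ, ((cyc m a b).map (Int.castRingHom ℂ)).eval z =
      (b : ℂ) ^ (cyclotomic m ℤ).natDegree * (cyclotomic m ℂ).eval ((a : ℂ) * z / b) := by
    intro z
    have h := scaleRoots_eval₂_mul (p := cyclotomic m ℤ) (Int.castRingHom ℂ) ((a : ℂ) * z / b) b
    have e : Int.castRingHom ℂ b * ((a : ℂ) * z / b) = a * z := by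
      rw [eq_intCast]
      field_simp
    rw [e] at h
    rw [cyc, eval_map, eval₂_comp, eval₂_mul, eval₂_C, eval₂_X, eq_intCast, h, eq_intCast,
      ← map_cyclotomic m (Int.castRingHom ℂ), eval_map]
  have haR : (0 : ℝ) < a := by exact_mod_cast (by omega : 0 < a)
  rw [mem_big, hev]
  have hroot : (b : ℂ) ^ (cyclotomic m ℤ).natDegree * (cyclotomic m ℂ).eval ((a : ℂ) * z / b) = 0 ↔
      IsPrimitiveRoot ((a : ℂ) * z / b) m := by
    rw [mul_eq_zero, or_iff_right (pow_ne_zero _ hb'), ← IsRoot.def, isRoot_cyclotomic_iff]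
  rw [hroot]
  constructor
  · exact fun h => h.2.1
  · intro h
    refine ⟨?_, h, ?_⟩
    · intro h0
      have h1 := hev 0
      rw [h0, Polynomial.map_zero, eval_zero, mul_zero, zero_div] at h1
      rcases mul_eq_zero.1 h1.symm with h2 | h2
      · exact pow_ne_zero _ hb' h2
      · have h3 : IsPrimitiveRoot (0 : ℂ) m := isRoot_cyclotomic_iff.1 h2
        have h4 := h3.pow_eq_one
        rw [zero_pow hm] at h4
        exact zero_ne_one h4
    · have h1 : ‖(a : ℂ) * z / b‖ = 1 := h.norm'_eq_one hm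
      rw [norm_div, norm_mul, Complex.norm_intCast, Complex.norm_intCast, abs_of_pos haR] at h1
      have hbp : (0 : ℝ) < |(b : ℝ)| := abs_pos.2 (by exact_mod_cast hb0)
      rw [div_eq_iff hbp.ne', one_mul] at h1
      have h2 : (a : ℝ) < |(b : ℝ)| := by exact_mod_cast hab
      by_contra h3
      push Not at h3
      nlinarith

theorem spec_cyc (k : ℕ) {m : ℕ} (hm : m ≠ 0) (a b : ℤ) (ha : 1 ≤ a) (hab : a < |b|) :
    SpecR k ((b : ℝ) / a) ⊆ Spec k (cyc m a b) := by
  have hm1 : 1 ≤ m := Nat.one_le_iff_ne_zero.2 hm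
  have ha' : (a : ℂ) ≠ 0 := by
    have : a ≠ 0 := by omega
    exact_mod_cast this
  have hb0 : b ≠ 0 := by
    rintro rfl
    rw [abs_zero] at hab
    omega
  have hb' : (b : ℂ) ≠ 0 := by exact_mod_cast hb0
  rintro s ⟨g, hg, rfl⟩
  set α : ℝ := (b : ℝ) / a with hα
  obtain ⟨hc1, r, hr, hc2⟩ := limsup_class (fun n => distZ (g.eval (n : ℝ) * α ^ n))
    (fun n => distZ_nonneg _) (fun n => distZ_le _) hm1
  obtain ⟨G, hGe, hGd⟩ : ∃ G : ℝ[X],
      (∀ n : ℕ, G.eval (n : ℝ) * α ^ n = g.eval (((n + r : ℕ)) : ℝ) * α ^ (n + r)) ∧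
      G.natDegree ≤ k := by
    refine ⟨C (α ^ r) * g.comp (X + C (r : ℝ)), fun n => ?_, ?_⟩
    · rw [eval_mul, eval_C, eval_comp, eval_add, eval_X, eval_C, pow_add]
      push_cast
      ring
    · refine (natDegree_C_mul_le _ _).trans ?_
      rw [natDegree_comp, natDegree_X_add_C, mul_one]
      exact hg
  refine ⟨fun z => C (Gam m ((a : ℂ) * z / b)) * G.map Complex.ofRealHom, ?_, ?_⟩
  · intro z _
    refine ⟨(natDegree_C_mul_le _ _).trans ((natDegree_map_le).trans hGd), ?_⟩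
    show C (Gam m ((a : ℂ) * starRingEnd ℂ z / b)) * G.map Complex.ofRealHom =
      (C (Gam m ((a : ℂ) * z / b)) * G.map Complex.ofRealHom).map (starRingEnd ℂ)
    have e1 : (a : ℂ) * starRingEnd ℂ z / b = starRingEnd ℂ ((a : ℂ) * z / b) := by
      rw [map_div₀, map_mul, map_intCast, map_intCast]
    have e2 : (G.map Complex.ofRealHom).map (starRingEnd ℂ) = G.map Complex.ofRealHom := by
      rw [Polynomial.map_map]
      congr 1
      ext x
      simp
    rw [e1, Gam_conj, Polynomial.map_mul, Polynomial.map_C, e2]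
  · have hx : ∀ n : ℕ, xseq (cyc m a b)
        (fun z => C (Gam m ((a : ℂ) * z / b)) * G.map Complex.ofRealHom) n =
        (cc m n : ℝ) * (G.eval (n : ℝ) * α ^ n) := by
      intro n
      have e : ∑ z ∈ bigRoots (cyc m a b),
          (C (Gam m ((a : ℂ) * z / b)) * G.map Complex.ofRealHom).eval (n : ℂ) * z ^ n =
          ∑ w ∈ primitiveRoots m ℂ, Gam m w * w ^ n * ((G.eval (n : ℝ) * α ^ n : ℝ) : ℂ) := by
        refine Finset.sum_nbij' (fun z => (a : ℂ) * z / b) (fun w => (b : ℂ) * w / a) ?_ ?_ ?_ ?_ ?_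
        · intro z hz
          exact (mem_primitiveRoots (Nat.pos_of_ne_zero hm)).2 ((mem_cyc hm a b ha hab z).1 hz)
        · intro w hw
          rw [mem_cyc hm a b ha hab]
          have : (a : ℂ) * ((b : ℂ) * w / a) / b = w := by
            field_simp
          rw [this]
          exact (mem_primitiveRoots (Nat.pos_of_ne_zero hm)).1 hw
        · intro z _
          field_simp
        · intro w _
          field_simp
        · intro z _
          have h1 : (G.map Complex.ofRealHom).eval (n : ℂ) = ((G.eval (n : ℝ) : ℝ) : ℂ) := by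
            rw [eval_natCast_map]
            rfl
          rw [eval_mul, eval_C, h1, hα]
          push_cast
          rw [div_pow, div_pow, mul_pow]
          field_simp
      unfold xseq
      rw [e, ← Finset.sum_mul, Gam_sum hm]
      rw [← Complex.ofReal_intCast, ← Complex.ofReal_mul, Complex.ofReal_re]
    have hd : ∀ n : ℕ, distZ ((cc m n : ℝ) * (G.eval (n : ℝ) * α ^ n)) ≤
        distZ (G.eval (n : ℝ) * α ^ n) := by
      intro n
      rcases cc_unit hm n with h | h | h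
      · rw [h, Int.cast_zero, zero_mul]
        have : distZ 0 = 0 := by simp [distZ]
        rw [this]
        exact distZ_nonneg _
      · rw [h, Int.cast_one, one_mul]
      · rw [h, Int.cast_neg, Int.cast_one, neg_one_mul, distZ_neg]
    have hfun : (fun n => distZ (xseq (cyc m a b)
        (fun z => C (Gam m ((a : ℂ) * z / b)) * G.map Complex.ofRealHom) n)) =
        fun n => distZ ((cc m n : ℝ) * (G.eval (n : ℝ) * α ^ n)) := by
      funext n
      rw [hx]
    rw [hfun]
    apply le_antisymm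
    · rw [hc2]
      have h1 := (limsup_class (fun n => distZ ((cc m n : ℝ) * (G.eval (n : ℝ) * α ^ n)))
        (fun n => distZ_nonneg _) (fun n => distZ_le _) hm1).1 0
      refine le_trans (le_of_eq ?_) h1
      congr 1
      funext j
      rw [add_zero, cc_mul hm, Int.cast_one, one_mul, hGe]
    · have h2 : limsup (fun n => distZ (g.eval (((n + r : ℕ)) : ℝ) * α ^ (n + r))) atTop =
          limsup (fun n : ℕ => distZ (g.eval (n : ℝ) * α ^ n)) atTop :=
        limsup_nat_add (fun n : ℕ => distZ (g.eval (n : ℝ) * α ^ n)) r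
      rw [← h2]
      refine limsup_le_limsup (Eventually.of_forall fun n => ?_)
        (isCoboundedUnder_le_of_le _ (x := 0) fun n => distZ_nonneg _)
        (isBoundedUnder_of ⟨1 / 2, fun n => distZ_le _⟩)
      show distZ ((cc m n : ℝ) * (G.eval (n : ℝ) * α ^ n)) ≤
        distZ (g.eval (((n + r : ℕ)) : ℝ) * α ^ (n + r))
      rw [← hGe]
      exact hd n

end Pool.Agent.Helper96.SB
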