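import Pool.Agent.Helper96.SB.Main

/-!
# `P(-X)`, linear polynomials and binomials
-/

set_option autoImplicit false

namespace Pool.Agent.Helper96.SB

open Polynomial Filter

lemma distZ_neg (x : ℝ) : distZ (-x) = distZ x := by
  have key : ∀ y : ℝ, distZ (-y) ≤ distZ y := by
    intro y
    have h := round_le (-y) (-round y)
    have e : -y - ((-round y : ℤ) : ℝ) = -(y - round y) := by push_cast; ring
    rw [e, abs_neg] at h
    exact h
  apply le_antisymm (key x)
  have := key (-x)
  rwa [neg_neg] at this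

lemma distZ_neg_pow (x β : ℝ) (n : ℕ) : distZ (x * (-β) ^ n) = distZ (x * β ^ n) := by
  rcases Nat.even_or_odd n with h | h
  · rw [h.neg_pow]
  · rw [h.neg_pow, mul_neg, distZ_neg]

lemma mem_comp_neg (P : ℤ[X]) (z : ℂ) : z ∈ bigRoots (P.comp (-X)) ↔ -z ∈ bigRoots P := by
  rw [mem_big, mem_big, Polynomial.map_comp, eval_comp, Polynomial.map_neg, Polynomial.map_X,
    eval_neg, eval_X, norm_neg]
  have h1 : P.comp (-X) = 0 ↔ P = 0 := by
    constructor
    · intro h
      have h2 : (P.comp (-X)).comp (-X) = P := by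
        rw [comp_assoc]
        simp
      rw [← h2, h, zero_comp]
    · rintro rfl
      exact zero_comp
  rw [ne_eq, ne_eq, h1]

lemma spec_comp_neg_le (k : ℕ) (P : ℤ[X]) : Spec k P ⊆ Spec k (P.comp (-X)) := by
  rintro s ⟨g, hg, rfl⟩
  refine ⟨fun z => g (-z), ?_, ?_⟩
  · intro z hz
    have h := hg _ ((mem_comp_neg P z).1 hz)
    refine ⟨h.1, ?_⟩
    show g (-starRingEnd ℂ z) = _
    rw [← map_neg]
    exact h.2
  · congr 1
    funext n
    have e : ∑ z ∈ bigRoots (P.comp (-X)), (g (-z)).eval (n : ℂ) * z ^ n =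
        (-1) ^ n * ∑ z ∈ bigRoots P, (g z).eval (n : ℂ) * z ^ n := by
      rw [Finset.mul_sum]
      refine Finset.sum_nbij' (fun z => -z) (fun z => -z) ?_ ?_ ?_ ?_ ?_
      · intro z hz
        exact (mem_comp_neg P z).1 hz
      · intro z hz
        rw [mem_comp_neg, neg_neg]
        exact hz
      · intro z _
        exact neg_neg z
      · intro z _
        exact neg_neg z
      · intro z _
        rw [neg_pow z n]
        have : ((-1 : ℂ)) ^ n * (-1) ^ n = 1 := by
          rw [← mul_pow]
          norm_num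
        calc (g (-z)).eval (n : ℂ) * z ^ n
            = ((-1 : ℂ) ^ n * (-1) ^ n) * ((g (-z)).eval (n : ℂ) * z ^ n) := by
              rw [this, one_mul]
          _ = _ := by ring
    unfold xseq
    rw [e]
    rcases Nat.even_or_odd n with h | h
    · rw [h.neg_one_pow, one_mul]
    · rw [h.neg_one_pow, neg_one_mul, Complex.neg_re, distZ_neg]

theorem spec_comp_neg (k : ℕ) (P : ℤ[X]) : Spec k (P.comp (-X)) = Spec k P := by
  apply Set.Subset.antisymm _ (spec_comp_neg_le k P)
  have h := spec_comp_neg_le k (P.comp (-X))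
  have h2 : (P.comp (-X)).comp (-X) = P := by
    rw [comp_assoc]
    simp
  rwa [h2] at h

lemma big_lin (a b : ℤ) (ha : 1 ≤ a) (hab : a < |b|) :
    bigRoots (C a * X + C b) = {((-((b : ℝ) / a) : ℝ) : ℂ)} := by
  have ha' : (a : ℂ) ≠ 0 := by
    have : a ≠ 0 := by omega
    exact_mod_cast this
  have haR : (0 : ℝ) < a := by exact_mod_cast (by omega : 0 < a)
  have hev : ∀ z : ℂ, ((C a * X + C b : ℤ[X]).map (Int.castRingHom ℂ)).eval z = a * z + b := by
    intro z
    rw [Polynomial.map_add, Polynomial.map_mul, Polynomial.map_C, Polynomial.map_C,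
      Polynomial.map_X, eval_add, eval_mul, eval_C, eval_C, eval_X, eq_intCast, eq_intCast]
  ext z
  rw [mem_big, Finset.mem_singleton, hev]
  constructor
  · rintro ⟨_, h, _⟩
    push_cast
    field_simp
    linear_combination h
  · intro h
    refine ⟨?_, ?_, ?_⟩
    · intro h0
      have h1 := congrArg (fun Q : ℤ[X] => Q.coeff 1) h0
      have h2 : (C a * X + C b : ℤ[X]).coeff 1 = a := by
        rw [coeff_add, coeff_C_mul, coeff_X_one, coeff_C_of_ne_zero (by omega), mul_one, add_zero]
      have h3 : (C a * X + C b : ℤ[X]).coeff 1 = 0 := by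
        rw [h0, coeff_zero]
      omega
    · rw [h]
      push_cast
      field_simp
      ring
    · rw [h, Complex.norm_real, Real.norm_eq_abs, abs_neg, abs_div, abs_of_pos haR, lt_div_iff₀ haR,
        one_mul]
      exact_mod_cast hab

/-- the spectrum of a linear polynomial with root `±α`: all values `limsup ‖g(n) α ^ n‖`,
`g` a real polynomial of degree at most `k` -/
def SpecR (k : ℕ) (α : ℝ) : Set ℝ :=
  {s | ∃ g : ℝ[X], g.natDegree ≤ k ∧ s = limsup (fun n : ℕ => distZ (g.eval (n : ℝ) * α ^ n)) atTop}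

theorem spec_lin (k : ℕ) (a b : ℤ) (ha : 1 ≤ a) (hab : a < |b|) :
    Spec k (C a * X + C b) = SpecR k ((b : ℝ) / a) := by
  have hbig := big_lin a b ha hab
  set α : ℝ := (b : ℝ) / a with hα
  have hx : ∀ (g : ℂ → ℂ[X]) (n : ℕ), xseq (C a * X + C b) g n =
      ((g ((-α : ℝ) : ℂ)).eval (n : ℂ)).re * (-α) ^ n := by
    intro g n
    unfold xseq
    rw [hbig, Finset.sum_singleton, ← Complex.ofReal_pow, mul_comm, Complex.re_ofReal_mul, mul_comm]
  ext s
  constructor
  · rintro ⟨g, hg, rfl⟩
    have hg1 := (hg _ (by rw [hbig]; exact Finset.mem_singleton_self _)).1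
    set G := g ((-α : ℝ) : ℂ) with hG
    refine ⟨∑ i ∈ Finset.range (k + 1), C (G.coeff i).re * X ^ i, ?_, ?_⟩
    · refine natDegree_sum_le_of_forall_le _ _ fun i hi => ?_
      refine (natDegree_C_mul_X_pow_le _ _).trans ?_
      have := Finset.mem_range.1 hi
      omega
    · congr 1
      funext n
      rw [hx, distZ_neg_pow]
      congr 2
      rw [eval_eq_sum_range' (n := k + 1) (Nat.lt_succ_of_le hg1), eval_finsetSum, Complex.re_sum]
      refine Finset.sum_congr rfl fun i _ => ?_
      rw [eval_mul, eval_C, eval_pow, eval_X]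
      have : ((n : ℂ)) ^ i = (((n : ℝ) ^ i : ℝ) : ℂ) := by push_cast; rfl
      rw [this, mul_comm, Complex.re_ofReal_mul, mul_comm]
  · rintro ⟨g, hg, rfl⟩
    refine ⟨fun _ => g.map Complex.ofRealHom, ?_, ?_⟩
    · intro z _
      refine ⟨(natDegree_map_le).trans hg, ?_⟩
      show g.map Complex.ofRealHom = (g.map Complex.ofRealHom).map (starRingEnd ℂ)
      rw [Polynomial.map_map]
      congr 1
      ext x
      simp
    · congr 1
      funext n
      rw [hx, distZ_neg_pow]
      congr 2
      rw [eval_natCast_map]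
      rfl

theorem spec_binom (k d : ℕ) (a b : ℤ) (ha : 1 ≤ a) (hab : a < |b|) (hd : 1 ≤ d) :
    Spec k (C a * X ^ d + C b) = SpecR k ((b : ℝ) / a) := by
  have e : expand ℤ d (C a * X + C b) = C a * X ^ d + C b := by
    rw [map_add, map_mul, expand_C, expand_C, expand_X]
  rw [← e, spec_expand k _ hd, spec_lin k a b ha hab]

end Pool.Agent.Helper96.SB
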