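import Mathlib

/-!
# The multiplicative Lagrange spectrum of `P(X^d)` is that of `P` (MP_91e6f2)
-/

set_option autoImplicit false

namespace Pool.Agent.Helper96.SB

open Polynomial Filter

/-- distance to the nearest integer -/
noncomputable def distZ (x : ℝ) : ℝ := |x - round x|

/-- the complex roots of `P` of modulus `> 1` -/
noncomputable def bigRoots (P : ℤ[X]) : Finset ℂ :=
  ((P.map (Int.castRingHom ℂ)).roots.toFinset).filter (fun z => 1 < ‖z‖)

/-- `g` gives a polynomial of degree at most `k` for each root of modulus `> 1`, with conjugate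
polynomials at conjugate roots (so real polynomials at the real roots) -/
def IsTuple (k : ℕ) (P : ℤ[X]) (g : ℂ → ℂ[X]) : Prop :=
  ∀ z ∈ bigRoots P, (g z).natDegree ≤ k ∧
    g (starRingEnd ℂ z) = (g z).map (starRingEnd ℂ)

/-- the (real) number `x_n(g) = ∑ g_i(n) α_i ^ n` -/
noncomputable def xseq (P : ℤ[X]) (g : ℂ → ℂ[X]) (n : ℕ) : ℝ :=
  (∑ z ∈ bigRoots P, (g z).eval (n : ℂ) * z ^ n).re

/-- the spectrum `L^(k)(P)` -/
def Spec (k : ℕ) (P : ℤ[X]) : Set ℝ :=
  {s | ∃ g : ℂ → ℂ[X], IsTuple k P g ∧ s = limsup (fun n : ℕ => distZ (xseq P g n)) atTop}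

lemma distZ_nonneg (x : ℝ) : 0 ≤ distZ x := abs_nonneg _

lemma distZ_le (x : ℝ) : distZ x ≤ 1 / 2 := abs_sub_round x

lemma mem_big (P : ℤ[X]) (z : ℂ) :
    z ∈ bigRoots P ↔ P ≠ 0 ∧ (P.map (Int.castRingHom ℂ)).eval z = 0 ∧ 1 < ‖z‖ := by
  have h0 : P.map (Int.castRingHom ℂ) = 0 ↔ P = 0 :=
    Polynomial.map_eq_zero_iff (RingHom.injective_int (Int.castRingHom ℂ))
  simp only [bigRoots, Finset.mem_filter, Multiset.mem_toFinset, mem_roots', IsRoot.def, ne_eq, h0]
  tauto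

lemma big_conj (P : ℤ[X]) {z : ℂ} (h : z ∈ bigRoots P) : starRingEnd ℂ z ∈ bigRoots P := by
  rw [mem_big] at h ⊢
  refine ⟨h.1, ?_, ?_⟩
  · have e : (P.map (Int.castRingHom ℂ)).map (starRingEnd ℂ) = P.map (Int.castRingHom ℂ) := by
      rw [Polynomial.map_map]
      congr 1
      exact RingHom.ext_int _ _
    have := Polynomial.eval_map_apply (starRingEnd ℂ) z (p := P.map (Int.castRingHom ℂ))
    rw [e, h.2.1, map_zero] at this
    exact this
  · rw [RCLike.norm_conj]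
    exact h.2.2

lemma mem_expand (P : ℤ[X]) {d : ℕ} (hd : 1 ≤ d) (z : ℂ) :
    z ∈ bigRoots (expand ℤ d P) ↔ z ^ d ∈ bigRoots P := by
  rw [mem_big, mem_big, Polynomial.map_expand, expand_eval, norm_pow]
  have h1 : expand ℤ d P = 0 ↔ P = 0 := expand_eq_zero (by omega)
  have h2 : 1 < ‖z‖ ^ d ↔ 1 < ‖z‖ := one_lt_pow_iff_of_nonneg (norm_nonneg _) (by omega)
  rw [ne_eq, ne_eq, h1, h2]

/-- the fibre over `z` of `β ↦ β ^ d` -/
noncomputable def fib (d : ℕ) (P : ℤ[X]) (z : ℂ) : Finset ℂ :=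
  (bigRoots (expand ℤ d P)).filter (fun β => β ^ d = z)

lemma mem_fib (P : ℤ[X]) {d : ℕ} (hd : 1 ≤ d) {z : ℂ} (hz : z ∈ bigRoots P) (β : ℂ) :
    β ∈ fib d P z ↔ β ^ d = z := by
  rw [fib, Finset.mem_filter, mem_expand P hd]
  constructor
  · exact fun h => h.2
  · intro h
    exact ⟨h ▸ hz, h⟩

lemma fib_conj (P : ℤ[X]) {d : ℕ} (hd : 1 ≤ d) {z : ℂ} (hz : z ∈ bigRoots P) :
    fib d P (starRingEnd ℂ z) = (fib d P z).image (starRingEnd ℂ) := by
  ext β
  rw [mem_fib P hd (big_conj P hz), Finset.mem_image]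
  constructor
  · intro h
    refine ⟨starRingEnd ℂ β, ?_, Complex.conj_conj β⟩
    rw [mem_fib P hd hz, ← map_pow, h, Complex.conj_conj]
  · rintro ⟨γ, h1, rfl⟩
    rw [mem_fib P hd hz] at h1
    rw [← map_pow, h1]

lemma fib_ne (P : ℤ[X]) {d : ℕ} (hd : 1 ≤ d) {z : ℂ} (hz : z ∈ bigRoots P) :
    ((fib d P z).card : ℂ) ≠ 0 := by
  obtain ⟨β, hβ⟩ := IsAlgClosed.exists_pow_nat_eq z (by omega : 0 < d)
  have : β ∈ fib d P z := (mem_fib P hd hz β).2 hβ
  exact_mod_cast (Finset.card_pos.2 ⟨β, this⟩).ne'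

lemma fib_sum (P : ℤ[X]) {d : ℕ} (hd : 1 ≤ d) {z : ℂ} (hz : z ∈ bigRoots P) (n : ℕ)
    (hn : ¬ d ∣ n) : ∑ β ∈ fib d P z, β ^ n = 0 := by
  have hprim := Complex.isPrimitiveRoot_exp d (by omega)
  set ζ : ℂ := Complex.exp (2 * Real.pi * Complex.I / d) with hζ
  have hζ0 : ζ ≠ 0 := Complex.exp_ne_zero _
  have e : ∑ β ∈ fib d P z, β ^ n = ∑ β ∈ fib d P z, (ζ * β) ^ n := by
    symm
    refine Finset.sum_nbij' (fun β => ζ * β) (fun β => ζ⁻¹ * β) ?_ ?_ ?_ ?_ ?_
    · intro β hβ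
      rw [mem_fib P hd hz] at hβ ⊢
      rw [mul_pow, hprim.pow_eq_one, one_mul, hβ]
    · intro β hβ
      rw [mem_fib P hd hz] at hβ ⊢
      rw [mul_pow, inv_pow, hprim.pow_eq_one, inv_one, one_mul, hβ]
    · intro β _
      rw [← mul_assoc, inv_mul_cancel₀ hζ0, one_mul]
    · intro β _
      rw [← mul_assoc, mul_inv_cancel₀ hζ0, one_mul]
    · intro β _
      rfl
  have e2 : ∑ β ∈ fib d P z, (ζ * β) ^ n = ζ ^ n * ∑ β ∈ fib d P z, β ^ n := by
    rw [Finset.mul_sum]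
    exact Finset.sum_congr rfl fun β _ => mul_pow _ _ _
  have h1 : ζ ^ n ≠ 1 := fun h => hn ((hprim.pow_eq_one_iff_dvd n).1 h)
  have h2 : (1 - ζ ^ n) * ∑ β ∈ fib d P z, β ^ n = 0 := by
    rw [sub_mul, one_mul, ← e2, ← e, sub_self]
  rcases mul_eq_zero.1 h2 with h | h
  · exact absurd (sub_eq_zero.1 h).symm h1
  · exact h

/-- limsup along residue classes -/
lemma limsup_class (u : ℕ → ℝ) (h0 : ∀ n, 0 ≤ u n) (h1 : ∀ n, u n ≤ 1 / 2) {d : ℕ} (hd : 1 ≤ d) :
    (∀ r, limsup (fun m => u (d * m + r)) atTop ≤ limsup u atTop) ∧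
      ∃ r < d, limsup u atTop = limsup (fun m => u (d * m + r)) atTop := by
  have hb : ∀ f : ℕ → ℕ, IsBoundedUnder (· ≤ ·) atTop (fun m => u (f m)) := fun f =>
    isBoundedUnder_of ⟨1 / 2, fun n => h1 _⟩
  have hc : ∀ f : ℕ → ℕ, IsCoboundedUnder (· ≤ ·) atTop (fun m => u (f m)) := fun f =>
    isCoboundedUnder_le_of_le _ (x := 0) fun n => h0 _
  have hle : ∀ r, limsup (fun m => u (d * m + r)) atTop ≤ limsup u atTop := by
    intro r
    have ht : Tendsto (fun m : ℕ => d * m + r) atTop atTop := by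
      refine tendsto_atTop_mono (fun m => ?_) tendsto_id
      show m ≤ d * m + r
      nlinarith
    refine le_of_forall_gt_imp_ge_of_dense fun c hc' => ?_
    have hev : ∀ᶠ n in atTop, u n < c := eventually_lt_of_limsup_lt hc' (hb id)
    exact limsup_le_of_le (hc _) ((ht.eventually hev).mono fun m hm => hm.le)
  refine ⟨hle, ?_⟩
  by_contra hcon
  push Not at hcon
  have hlt : ∀ r < d, limsup (fun m => u (d * m + r)) atTop < limsup u atTop := fun r hr =>
    lt_of_le_of_ne (hle r) (hcon r hr).symm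
  have hne : (Finset.range d).Nonempty := ⟨0, Finset.mem_range.2 (by omega)⟩
  obtain ⟨r0, hr0, hmax⟩ := Finset.exists_max_image (Finset.range d)
    (fun r => limsup (fun m => u (d * m + r)) atTop) hne
  obtain ⟨c, hc1, hc2⟩ := exists_between (hlt r0 (Finset.mem_range.1 hr0))
  have hev : ∀ r ∈ Finset.range d, ∀ᶠ m in atTop, u (d * m + r) < c := by
    intro r hr
    exact eventually_lt_of_limsup_lt ((hmax r hr).trans_lt hc1) (hb _)
  have hev2 : ∀ᶠ m in atTop, ∀ r ∈ Finset.range d, u (d * m + r) < c :=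
    (Filter.eventually_all_finset _).2 hev
  obtain ⟨M, hM⟩ := eventually_atTop.1 hev2
  have hfin : ∀ᶠ n in atTop, u n ≤ c := by
    refine eventually_atTop.2 ⟨d * M, fun n hn => ?_⟩
    have hdm := Nat.div_add_mod n d
    have hmod := Nat.mod_lt n (by omega : 0 < d)
    have hM' : M ≤ n / d := (Nat.le_div_iff_mul_le (by omega)).2 (by rw [mul_comm]; exact hn)
    have := hM (n / d) hM' (n % d) (Finset.mem_range.2 hmod)
    rw [hdm] at this
    exact this.le
  exact absurd (limsup_le_of_le (hc id) hfin) (not_le.2 hc2)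

/-- the tuple of the residue class `r` -/
noncomputable def GG (d : ℕ) (P : ℤ[X]) (g : ℂ → ℂ[X]) (r : ℕ) (z : ℂ) : ℂ[X] :=
  ∑ β ∈ fib d P z, C (β ^ r) * (g β).comp (C (d : ℂ) * X + C (r : ℂ))

lemma GG_tuple (k : ℕ) (P : ℤ[X]) {d : ℕ} (hd : 1 ≤ d) (g : ℂ → ℂ[X])
    (hg : IsTuple k (expand ℤ d P) g) (r : ℕ) : IsTuple k P (GG d P g r) := by
  intro z hz
  have hmem : ∀ β ∈ fib d P z, β ∈ bigRoots (expand ℤ d P) := fun β hβ =>
    (Finset.mem_filter.1 hβ).1
  constructor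
  · refine natDegree_sum_le_of_forall_le _ _ fun β hβ => ?_
    refine (natDegree_C_mul_le _ _).trans ?_
    rw [natDegree_comp]
    have h1 := (hg β (hmem β hβ)).1
    have h2 : (C (d : ℂ) * X + C (r : ℂ)).natDegree ≤ 1 := natDegree_linear_le
    calc _ ≤ k * 1 := Nat.mul_le_mul h1 h2
      _ = k := mul_one k
  · rw [GG, fib_conj P hd hz, Finset.sum_image (fun a _ b _ h => (starRingEnd ℂ).injective h), GG,
      Polynomial.map_sum]
    refine Finset.sum_congr rfl fun β hβ => ?_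
    have e1 : starRingEnd ℂ (d : ℂ) = d := map_natCast _ _
    have e2 : starRingEnd ℂ (r : ℂ) = r := map_natCast _ _
    rw [(hg β (hmem β hβ)).2, Polynomial.map_mul, Polynomial.map_comp, Polynomial.map_add,
      Polynomial.map_mul, Polynomial.map_C, Polynomial.map_C, Polynomial.map_C, Polynomial.map_X,
      e1, e2, RingHom.map_pow (starRingEnd ℂ)]

lemma GG_xseq (P : ℤ[X]) {d : ℕ} (hd : 1 ≤ d) (g : ℂ → ℂ[X]) (r m : ℕ) :
    xseq P (GG d P g r) m = xseq (expand ℤ d P) g (d * m + r) := by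
  unfold xseq
  congr 1
  rw [← Finset.sum_fiberwise_of_maps_to (s := bigRoots (expand ℤ d P)) (t := bigRoots P)
    (g := fun β => β ^ d) (fun β hβ => (mem_expand P hd β).1 hβ)]
  refine Finset.sum_congr rfl fun z hz => ?_
  rw [GG, eval_finsetSum, Finset.sum_mul]
  refine Finset.sum_congr rfl fun β hβ => ?_
  have hβ' : β ^ d = z := (Finset.mem_filter.1 hβ).2
  rw [eval_mul, eval_C, eval_comp, eval_add, eval_mul, eval_C, eval_X, eval_C, pow_add, pow_mul,
    hβ']
  push_cast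
  ring

/-- the tuple carried by the multiples of `d` -/
noncomputable def HH (d : ℕ) (P : ℤ[X]) (G : ℂ → ℂ[X]) (β : ℂ) : ℂ[X] :=
  C (((fib d P (β ^ d)).card : ℂ)⁻¹) * (G (β ^ d)).comp (C ((d : ℂ)⁻¹) * X)

lemma HH_tuple (k : ℕ) (P : ℤ[X]) {d : ℕ} (hd : 1 ≤ d) (G : ℂ → ℂ[X])
    (hG : IsTuple k P G) : IsTuple k (expand ℤ d P) (HH d P G) := by
  intro β hβ
  have hz := (mem_expand P hd β).1 hβ
  constructor
  · refine (natDegree_C_mul_le _ _).trans ?_
    rw [natDegree_comp]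
    have h2 : (C ((d : ℂ)⁻¹) * X : ℂ[X]).natDegree ≤ 1 :=
      (natDegree_C_mul_le _ _).trans natDegree_X.le
    calc _ ≤ k * 1 := Nat.mul_le_mul (hG _ hz).1 h2
      _ = k := mul_one k
  · have e1 : starRingEnd ℂ ((d : ℂ)⁻¹) = (d : ℂ)⁻¹ := by
      rw [map_inv₀, map_natCast]
    have e2 : starRingEnd ℂ (((fib d P (β ^ d)).card : ℂ)⁻¹) =
        ((fib d P (β ^ d)).card : ℂ)⁻¹ := by
      rw [map_inv₀, map_natCast]
    rw [HH, HH, ← map_pow, (hG _ hz).2, fib_conj P hd hz,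
      Finset.card_image_of_injective _ (starRingEnd ℂ).injective, Polynomial.map_mul,
      Polynomial.map_comp, Polynomial.map_mul, Polynomial.map_C, Polynomial.map_C,
      Polynomial.map_X, e1, e2]

lemma HH_xseq (P : ℤ[X]) {d : ℕ} (hd : 1 ≤ d) (G : ℂ → ℂ[X]) (m : ℕ) :
    xseq (expand ℤ d P) (HH d P G) (d * m) = xseq P G m ∧
      ∀ r, 0 < r → r < d → xseq (expand ℤ d P) (HH d P G) (d * m + r) = 0 := by
  have key : ∀ n : ℕ, ∑ β ∈ bigRoots (expand ℤ d P), (HH d P G β).eval (n : ℂ) * β ^ n =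
      ∑ z ∈ bigRoots P, ((fib d P z).card : ℂ)⁻¹ * (G z).eval ((d : ℂ)⁻¹ * n) *
        ∑ β ∈ fib d P z, β ^ n := by
    intro n
    rw [← Finset.sum_fiberwise_of_maps_to (s := bigRoots (expand ℤ d P)) (t := bigRoots P)
      (g := fun β => β ^ d) (fun β hβ => (mem_expand P hd β).1 hβ)]
    refine Finset.sum_congr rfl fun z hz => ?_
    rw [Finset.mul_sum]
    refine Finset.sum_congr rfl fun β hβ => ?_
    have hβ' : β ^ d = z := (Finset.mem_filter.1 hβ).2
    rw [HH, hβ', eval_mul, eval_C, eval_comp, eval_mul, eval_C, eval_X]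
  have hd0 : (d : ℂ) ≠ 0 := by
    have : d ≠ 0 := by omega
    exact_mod_cast this
  constructor
  · unfold xseq
    congr 1
    rw [key]
    refine Finset.sum_congr rfl fun z hz => ?_
    have h1 : ∑ β ∈ fib d P z, β ^ (d * m) = ((fib d P z).card : ℂ) * z ^ m := by
      rw [Finset.sum_congr rfl (g := fun _ => z ^ m), Finset.sum_const, nsmul_eq_mul]
      intro β hβ
      rw [pow_mul, (mem_fib P hd hz β).1 hβ]
    rw [h1]
    have h2 := fib_ne P hd hz
    push_cast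
    rw [← mul_assoc (d : ℂ)⁻¹, inv_mul_cancel₀ hd0, one_mul]
    field_simp
  · intro r hr hr'
    unfold xseq
    rw [key, Finset.sum_eq_zero, Complex.zero_re]
    intro z hz
    rw [fib_sum P hd hz, mul_zero]
    intro h
    have h3 : d ∣ r := (Nat.dvd_add_right (Dvd.intro m rfl)).1 h
    exact absurd (Nat.le_of_dvd hr h3) (by omega)

theorem spec_expand (k : ℕ) (P : ℤ[X]) {d : ℕ} (hd : 1 ≤ d) :
    Spec k (expand ℤ d P) = Spec k P := by
  apply Set.Subset.antisymm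
  · rintro s ⟨g, hg, rfl⟩
    obtain ⟨r, _, hr⟩ := (limsup_class (fun n => distZ (xseq (expand ℤ d P) g n))
      (fun n => distZ_nonneg _) (fun n => distZ_le _) hd).2
    refine ⟨GG d P g r, GG_tuple k P hd g hg r, ?_⟩
    rw [hr]
    congr 1
    funext m
    rw [GG_xseq P hd]
  · rintro s ⟨G, hG, rfl⟩
    refine ⟨HH d P G, HH_tuple k P hd G hG, ?_⟩
    obtain ⟨h1, r, hr, h2⟩ := limsup_class (fun n => distZ (xseq (expand ℤ d P) (HH d P G) n))
      (fun n => distZ_nonneg _) (fun n => distZ_le _) hd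
    have e0 : limsup (fun m => distZ (xseq (expand ℤ d P) (HH d P G) (d * m + 0))) atTop =
        limsup (fun n => distZ (xseq P G n)) atTop := by
      congr 1
      funext m
      rw [add_zero, (HH_xseq P hd G m).1]
    apply le_antisymm
    · rw [← e0]
      exact h1 0
    · rw [h2]
      rcases Nat.eq_zero_or_pos r with h | h
      · subst h
        exact e0.le
      · have e1 : (fun m => distZ (xseq (expand ℤ d P) (HH d P G) (d * m + r))) =
            fun _ => (0 : ℝ) := by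
          funext m
          rw [(HH_xseq P hd G m).2 r h hr]
          simp [distZ]
        rw [e1, limsup_const]
        exact le_limsup_of_frequently_le (Frequently.of_forall fun n => distZ_nonneg _)
          (isBoundedUnder_of ⟨1 / 2, fun n => distZ_le _⟩)

end Pool.Agent.Helper96.SB
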