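import Pool.Agent.Helper96.SB.Cyc

/-!
# Twists by roots of unity
-/

set_option autoImplicit false

namespace Pool.Agent.Helper96.SB

open Polynomial Filter

/-- pairs `(α, w)`, `α` a root of `Q` of modulus `> 1`, `w` a primitive `m`-th root of unity -/
noncomputable def prs (m : ℕ) (Q : ℤ[X]) : Finset (ℂ × ℂ) := bigRoots Q ×ˢ primitiveRoots m ℂ

/-- the tuple of the twist -/
noncomputable def TT (m : ℕ) (Q : ℤ[X]) (g : ℂ → ℂ[X]) (r : ℕ) (z : ℂ) : ℂ[X] :=
  ∑ x ∈ (prs m Q).filter (fun x => x.1 * x.2 = z),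
    C (Gam m x.2 * x.1 ^ r) * (g x.1).comp (X + C (r : ℂ))

theorem spec_twist (k : ℕ) {m : ℕ} (hm : m ≠ 0) (Q P : ℤ[X]) (hP : P ≠ 0)
    (hQP : ∀ α ∈ bigRoots Q, ∀ w : ℂ, IsPrimitiveRoot w m →
      (P.map (Int.castRingHom ℂ)).eval (α * w) = 0) :
    Spec k Q ⊆ Spec k P := by
  have hm0 : 0 < m := Nat.pos_of_ne_zero hm
  have hm1 : 1 ≤ m := hm0
  rintro s ⟨g, hg, rfl⟩
  obtain ⟨hc1, r, hr, hc2⟩ := limsup_class (fun n => distZ (xseq Q g n))
    (fun n => distZ_nonneg _) (fun n => distZ_le _) hm1
  have hbig : ∀ x ∈ prs m Q, x.1 * x.2 ∈ bigRoots P := by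
    rintro ⟨α, w⟩ hx
    obtain ⟨h1, h2⟩ := Finset.mem_product.1 hx
    have hw := (mem_primitiveRoots hm0).1 h2
    rw [mem_big]
    refine ⟨hP, hQP α h1 w hw, ?_⟩
    show 1 < ‖α * w‖
    rw [norm_mul, hw.norm'_eq_one hm, mul_one]
    exact ((mem_big Q α).1 h1).2.2
  have hx : ∀ n : ℕ, xseq P (TT m Q g r) n = (cc m n : ℝ) * xseq Q g (n + r) := by
    intro n
    have e : ∑ z ∈ bigRoots P, (TT m Q g r z).eval (n : ℂ) * z ^ n =
        (cc m n : ℂ) * ∑ α ∈ bigRoots Q, (g α).eval ((n + r : ℕ) : ℂ) * α ^ (n + r) := by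
      have e1 : ∑ z ∈ bigRoots P, (TT m Q g r z).eval (n : ℂ) * z ^ n =
          ∑ x ∈ prs m Q, Gam m x.2 * x.1 ^ r * (g x.1).eval ((n + r : ℕ) : ℂ) *
            (x.1 * x.2) ^ n := by
        rw [← Finset.sum_fiberwise_of_maps_to (s := prs m Q) (t := bigRoots P)
          (g := fun x => x.1 * x.2) hbig]
        refine Finset.sum_congr rfl fun z _ => ?_
        rw [TT, eval_finsetSum, Finset.sum_mul]
        refine Finset.sum_congr rfl fun x hx => ?_
        rw [(Finset.mem_filter.1 hx).2, eval_mul, eval_C, eval_comp, eval_add, eval_X, eval_C]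
        push_cast
        ring
      rw [e1, prs, Finset.sum_product, ← Gam_sum hm, Finset.sum_mul_sum, Finset.sum_comm]
      refine Finset.sum_congr rfl fun w _ => Finset.sum_congr rfl fun α _ => ?_
      rw [mul_pow, pow_add]
      ring
    unfold xseq
    rw [e, ← Complex.ofReal_intCast, Complex.re_ofReal_mul]
  refine ⟨TT m Q g r, ?_, ?_⟩
  · intro z _
    constructor
    · refine natDegree_sum_le_of_forall_le _ _ fun x hx => ?_
      have h1 := (Finset.mem_product.1 (Finset.mem_filter.1 hx).1).1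
      refine (natDegree_C_mul_le _ _).trans ?_
      rw [natDegree_comp, natDegree_X_add_C, mul_one]
      exact (hg _ h1).1
    · rw [TT, TT, Polynomial.map_sum]
      refine Finset.sum_nbij' (fun x => (starRingEnd ℂ x.1, starRingEnd ℂ x.2))
        (fun x => (starRingEnd ℂ x.1, starRingEnd ℂ x.2)) ?_ ?_ ?_ ?_ ?_
      · rintro ⟨α, w⟩ hx
        obtain ⟨h1, h2⟩ := Finset.mem_filter.1 hx
        obtain ⟨h3, h4⟩ := Finset.mem_product.1 h1
        refine Finset.mem_filter.2 ⟨Finset.mem_product.2 ⟨big_conj Q h3, ?_⟩, ?_⟩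
        · exact (mem_primitiveRoots hm0).2
            (((mem_primitiveRoots hm0).1 h4).map_of_injective (starRingEnd ℂ).injective)
        · show starRingEnd ℂ α * starRingEnd ℂ w = z
          have h5 : α * w = starRingEnd ℂ z := h2
          rw [← map_mul, h5, Complex.conj_conj]
      · rintro ⟨α, w⟩ hx
        obtain ⟨h1, h2⟩ := Finset.mem_filter.1 hx
        obtain ⟨h3, h4⟩ := Finset.mem_product.1 h1
        refine Finset.mem_filter.2 ⟨Finset.mem_product.2 ⟨big_conj Q h3, ?_⟩, ?_⟩
        · exact (mem_primitiveRoots hm0).2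
            (((mem_primitiveRoots hm0).1 h4).map_of_injective (starRingEnd ℂ).injective)
        · show starRingEnd ℂ α * starRingEnd ℂ w = starRingEnd ℂ z
          have h5 : α * w = z := h2
          rw [← map_mul, h5]
      · rintro ⟨α, w⟩ _
        show (starRingEnd ℂ (starRingEnd ℂ α), starRingEnd ℂ (starRingEnd ℂ w)) = (α, w)
        rw [Complex.conj_conj, Complex.conj_conj]
      · rintro ⟨α, w⟩ _
        show (starRingEnd ℂ (starRingEnd ℂ α), starRingEnd ℂ (starRingEnd ℂ w)) = (α, w)
        rw [Complex.conj_conj, Complex.conj_conj]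
      · rintro ⟨α, w⟩ hx
        have h1 := (Finset.mem_product.1 (Finset.mem_filter.1 hx).1).1
        show C (Gam m w * α ^ r) * (g α).comp (X + C (r : ℂ)) =
          (C (Gam m (starRingEnd ℂ w) * (starRingEnd ℂ α) ^ r) *
            (g (starRingEnd ℂ α)).comp (X + C (r : ℂ))).map (starRingEnd ℂ)
        have e1 : starRingEnd ℂ (Gam m (starRingEnd ℂ w) * (starRingEnd ℂ α) ^ r) =
            Gam m w * α ^ r := by
          rw [Gam_conj, map_mul, map_pow, Complex.conj_conj, Complex.conj_conj]
        have e2 : (g (starRingEnd ℂ α)).map (starRingEnd ℂ) = g α := by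
          rw [(hg _ h1).2, Polynomial.map_map]
          have : (starRingEnd ℂ).comp (starRingEnd ℂ) = RingHom.id ℂ := by
            ext x
            simp
          rw [this, Polynomial.map_id]
        have e3 : starRingEnd ℂ (r : ℂ) = r := map_natCast _ _
        rw [Polynomial.map_mul, Polynomial.map_comp, Polynomial.map_C, Polynomial.map_add,
          Polynomial.map_X, Polynomial.map_C, e1, e2, e3]
  · have hd : ∀ n : ℕ, distZ ((cc m n : ℝ) * xseq Q g (n + r)) ≤ distZ (xseq Q g (n + r)) := by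
      intro n
      rcases cc_unit hm n with h | h | h
      · rw [h, Int.cast_zero, zero_mul]
        have : distZ 0 = 0 := by simp [distZ]
        rw [this]
        exact distZ_nonneg _
      · rw [h, Int.cast_one, one_mul]
      · rw [h, Int.cast_neg, Int.cast_one, neg_one_mul, distZ_neg]
    have hfun : (fun n => distZ (xseq P (TT m Q g r) n)) =
        fun n => distZ ((cc m n : ℝ) * xseq Q g (n + r)) := by
      funext n
      rw [hx]
    rw [hfun]
    apply le_antisymm
    · rw [hc2]
      have h1 := (limsup_class (fun n => distZ ((cc m n : ℝ) * xseq Q g (n + r)))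
        (fun n => distZ_nonneg _) (fun n => distZ_le _) hm1).1 0
      refine le_trans (le_of_eq ?_) h1
      congr 1
      funext j
      rw [add_zero, cc_mul hm, Int.cast_one, one_mul]
    · have h2 : limsup (fun n => distZ (xseq Q g (n + r))) atTop =
          limsup (fun n : ℕ => distZ (xseq Q g n)) atTop :=
        limsup_nat_add (fun n : ℕ => distZ (xseq Q g n)) r
      rw [← h2]
      exact limsup_le_limsup (Eventually.of_forall hd)
        (isCoboundedUnder_le_of_le _ (x := 0) fun n => distZ_nonneg _)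
        (isBoundedUnder_of ⟨1 / 2, fun n => distZ_le _⟩)

end Pool.Agent.Helper96.SB
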