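import Pool.Agent.Helper96.SB.Lin

/-!
# `0` is an isolated point of `L^(k)(P)` for every non-monic `P`
-/

set_option autoImplicit false

namespace Pool.Agent.Helper96.SB

open Polynomial Filter

/-- the shift of sequences -/
def sh (A : Type) [CommRing A] : Module.End A (ℕ → A) where
  toFun x n := x (n + 1)
  map_add' _ _ := rfl
  map_smul' _ _ := rfl

lemma sh_pow {A : Type} [CommRing A] (i : ℕ) : ∀ (x : ℕ → A) (n : ℕ), ((sh A) ^ i) x n = x (n + i) := by
  induction i with
  | zero =>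
    intro x n
    rfl
  | succ i ih =>
    intro x n
    rw [pow_succ', Module.End.mul_apply]
    show ((sh A) ^ i) x (n + 1) = _
    rw [ih]
    congr 1
    omega

lemma act_apply {A : Type} [CommRing A] (R : A[X]) {N : ℕ} (h : R.natDegree < N) (x : ℕ → A)
    (n : ℕ) : (aeval (sh A) R x) n = ∑ i ∈ Finset.range N, R.coeff i * x (n + i) := by
  rw [aeval_eq_sum_range' h, LinearMap.sum_apply, Finset.sum_apply]
  refine Finset.sum_congr rfl fun i _ => ?_
  rw [LinearMap.smul_apply, Pi.smul_apply, sh_pow, smul_eq_mul]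

lemma act_map {A B : Type} [CommRing A] [CommRing B] (φ : A →+* B) (R : A[X]) (x : ℕ → A) (n : ℕ) :
    (aeval (sh B) (R.map φ) (fun m => φ (x m))) n = φ ((aeval (sh A) R x) n) := by
  rw [act_apply R (Nat.lt_succ_self _), act_apply (R.map φ)
    (Nat.lt_succ_of_le (natDegree_map_le)), map_sum]
  refine Finset.sum_congr rfl fun i _ => ?_
  rw [coeff_map, map_mul]

lemma act_mul {A : Type} [CommRing A] (R S : A[X]) (x : ℕ → A) :
    aeval (sh A) (R * S) x = aeval (sh A) R (aeval (sh A) S x) := by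
  rw [map_mul]
  rfl

lemma act_lin {A : Type} [CommRing A] (z : A) (x : ℕ → A) (n : ℕ) :
    (aeval (sh A) (X - C z) x) n = x (n + 1) - z * x n := by
  rw [map_sub, aeval_X, aeval_C]
  rfl

lemma exp_kill (z : ℂ) (j : ℕ) : ∀ f : ℂ → ℂ, (fwdDiff (1 : ℂ))^[j] f = 0 →
    aeval (sh ℂ) ((X - C z) ^ j) (fun n : ℕ => f n * z ^ n) = 0 := by
  induction j with
  | zero =>
    intro f hf
    have hf' : f = 0 := hf
    subst hf'
    rw [pow_zero, map_one]
    funext n
    show (0 : ℂ → ℂ) n * z ^ n = 0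
    rw [Pi.zero_apply, zero_mul]
  | succ j ih =>
    intro f hf
    rw [Function.iterate_succ_apply] at hf
    have h1 := ih _ hf
    have h2 : aeval (sh ℂ) (X - C z) (fun n : ℕ => f n * z ^ n) =
        z • (fun n : ℕ => (fwdDiff (1 : ℂ) f) n * z ^ n) := by
      funext n
      rw [act_lin, Pi.smul_apply, fwdDiff, smul_eq_mul]
      push_cast
      ring
    rw [pow_succ, act_mul, h2, map_smul, h1, smul_zero]

/-- the complex sequence -/
noncomputable def cx (P : ℤ[X]) (g : ℂ → ℂ[X]) (n : ℕ) : ℂ :=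
  ∑ z ∈ bigRoots P, (g z).eval (n : ℂ) * z ^ n

lemma cx_kill (k : ℕ) (P : ℤ[X]) (g : ℂ → ℂ[X]) (hg : IsTuple k P g) (R : ℂ[X])
    (hR : ∀ z ∈ bigRoots P, (X - C z) ^ (k + 1) ∣ R) : aeval (sh ℂ) R (cx P g) = 0 := by
  have e : cx P g = ∑ z ∈ bigRoots P, fun n : ℕ => (g z).eval (n : ℂ) * z ^ n := by
    funext n
    rw [Finset.sum_apply]
    rfl
  rw [e, map_sum]
  refine Finset.sum_eq_zero fun z hz => ?_
  obtain ⟨S, hS⟩ := hR z hz
  rw [hS, mul_comm, act_mul,
    exp_kill z (k + 1) (fun w => (g z).eval w)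
      (fwdDiff_iter_eq_zero_of_degree_lt (Nat.lt_succ_of_le (hg z hz).1)), map_zero]

lemma cx_real (k : ℕ) (P : ℤ[X]) (g : ℂ → ℂ[X]) (hg : IsTuple k P g) (n : ℕ) :
    cx P g n = ((xseq P g n : ℝ) : ℂ) := by
  have h : starRingEnd ℂ (cx P g n) = cx P g n := by
    unfold cx
    rw [map_sum]
    refine Finset.sum_nbij' (fun z => starRingEnd ℂ z) (fun z => starRingEnd ℂ z) ?_ ?_ ?_ ?_ ?_
    · exact fun z hz => big_conj P hz
    · exact fun z hz => big_conj P hz
    · exact fun z _ => Complex.conj_conj z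
    · exact fun z _ => Complex.conj_conj z
    · intro z hz
      rw [(hg z hz).2, map_mul, map_pow]
      congr 1
      have := Polynomial.eval_map_apply (starRingEnd ℂ) (n : ℂ) (p := g z)
      rw [map_natCast] at this
      exact this.symm
  exact (Complex.conj_eq_iff_re.1 h).symm

/-- bounded sequences -/
def Bd (x : ℕ → ℂ) : Prop := ∃ K : ℝ, ∀ n, ‖x n‖ ≤ K

lemma Bd.act {x : ℕ → ℂ} (hx : Bd x) (R : ℂ[X]) : Bd (aeval (sh ℂ) R x) := by
  obtain ⟨K, hK⟩ := hx
  refine ⟨∑ i ∈ Finset.range (R.natDegree + 1), ‖R.coeff i‖ * K, fun n => ?_⟩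
  rw [act_apply R (Nat.lt_succ_self _)]
  refine (norm_sum_le _ _).trans (Finset.sum_le_sum fun i _ => ?_)
  rw [norm_mul]
  exact mul_le_mul_of_nonneg_left (hK _) (norm_nonneg _)

lemma bd_lin {z : ℂ} (hz : 1 < ‖z‖) {y : ℕ → ℂ} (hy : Bd y)
    (h : aeval (sh ℂ) (X - C z) y = 0) : y = 0 := by
  have h1 : ∀ n m, y (n + m) = z ^ m * y n := by
    intro n m
    induction m with
    | zero => simp
    | succ m ih =>
      have h2 := congrFun h (n + m)
      rw [act_lin, Pi.zero_apply, sub_eq_zero] at h2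
      rw [← add_assoc, h2, ih, pow_succ]
      ring
  obtain ⟨K, hK⟩ := hy
  funext n
  by_contra h0
  have h3 : 0 < ‖y n‖ := norm_pos_iff.2 h0
  obtain ⟨m, hm⟩ := pow_unbounded_of_one_lt (K / ‖y n‖) hz
  have h4 := hK (n + m)
  rw [h1, norm_mul, norm_pow] at h4
  rw [div_lt_iff₀ h3] at hm
  exact absurd h4 (not_le.2 hm)

lemma bd_pow {z : ℂ} (hz : 1 < ‖z‖) (j : ℕ) : ∀ {y : ℕ → ℂ}, Bd y →
    aeval (sh ℂ) ((X - C z) ^ j) y = 0 → y = 0 := by
  induction j with
  | zero =>
    intro y _ h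
    rw [pow_zero, map_one] at h
    exact h
  | succ j ih =>
    intro y hy h
    rw [pow_succ', act_mul] at h
    exact ih hy (bd_lin hz (hy.act _) h)

lemma bd_prod (m : ℕ) (S : Finset ℂ) (hS : ∀ z ∈ S, 1 < ‖z‖) : ∀ {y : ℕ → ℂ}, Bd y →
    aeval (sh ℂ) (∏ z ∈ S, (X - C z) ^ m) y = 0 → y = 0 := by
  classical
  induction S using Finset.induction_on with
  | empty =>
    intro y _ h
    rw [Finset.prod_empty, map_one] at h
    exact h
  | insert z S hz ih =>
    intro y hy h
    rw [Finset.prod_insert hz, act_mul] at h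
    exact ih (fun w hw => hS w (Finset.mem_insert_of_mem hw)) hy
      (bd_pow (hS z (Finset.mem_insert_self _ _)) m (hy.act _) h)

/-- integer sequences killed by a power of a non-monic irreducible polynomial vanish -/
lemma int_zero (P : ℤ[X]) (hP : Irreducible P) (hd : P.natDegree ≠ 0) (hl : ¬ IsUnit P.leadingCoeff)
    (k : ℕ) (u : ℕ → ℤ) (hu : aeval (sh ℤ) (P ^ (k + 1)) u = 0) : u = 0 := by
  have hprim : P.IsPrimitive := hP.isPrimitive hd
  set R : ℤ[X] := P ^ (k + 1) with hR
  have hR0 : R ≠ 0 := pow_ne_zero _ hP.ne_zero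
  set L : Submodule ℤ (ℕ → ℤ) := LinearMap.ker (aeval (sh ℤ) R) with hL
  have hinv : ∀ x ∈ L, sh ℤ x ∈ L := by
    intro x hx
    rw [hL, LinearMap.mem_ker] at hx ⊢
    have h1 : sh ℤ x = aeval (sh ℤ) (X : ℤ[X]) x := by rw [aeval_X]
    rw [h1, ← act_mul, mul_comm, act_mul, hx, map_zero]
  have hfin : Module.Finite ℤ L := by
    let F : L →ₗ[ℤ] (Fin R.natDegree → ℤ) :=
      { toFun := fun x i => (x : ℕ → ℤ) i
        map_add' := fun _ _ => rfl
        map_smul' := fun _ _ => rfl }
    refine Module.Finite.of_injective F ?_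
    rw [injective_iff_map_eq_zero]
    intro x hx
    have hx0 : ∀ n, n < R.natDegree → (x : ℕ → ℤ) n = 0 := fun n hn => congrFun hx ⟨n, hn⟩
    have hall : ∀ n, (x : ℕ → ℤ) n = 0 := by
      intro n
      induction n using Nat.strong_induction_on with
      | _ n ih =>
        by_cases hn : n < R.natDegree
        · exact hx0 n hn
        · push Not at hn
          obtain ⟨m, rfl⟩ := Nat.exists_eq_add_of_le' hn
          have h1 := congrFun (LinearMap.mem_ker.1 x.2) m
          rw [act_apply R (Nat.lt_succ_self _), Finset.sum_range_succ, Finset.sum_eq_zero, zero_add,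
            Pi.zero_apply] at h1
          · rcases mul_eq_zero.1 h1 with h2 | h2
            · exact absurd h2 (leadingCoeff_ne_zero.2 hR0)
            · exact h2
          · intro i hi
            rw [ih (m + i) (by have := Finset.mem_range.1 hi; omega), mul_zero]
    exact Subtype.ext (funext hall)
  let E' : Module.End ℤ L := (sh ℤ).restrict hinv
  obtain ⟨f, hf, hf0⟩ := (Module.End.isIntegral (R := ℤ) (M := L)).isIntegral E'
  have hpow : ∀ (i : ℕ) (x : L), (((E' ^ i) x : L) : ℕ → ℤ) = ((sh ℤ) ^ i) (x : ℕ → ℤ) := by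
    intro i
    induction i with
    | zero => exact fun x => rfl
    | succ i ih =>
      intro x
      rw [pow_succ, pow_succ, Module.End.mul_apply, Module.End.mul_apply, ih]
      rfl
  have hfu : aeval (sh ℤ) f u = 0 := by
    have h1 : (aeval E' f) (⟨u, LinearMap.mem_ker.2 hu⟩ : L) = 0 := by
      have h2 : aeval E' f = 0 := hf0
      rw [h2]
      rfl
    have h3 := congrArg (fun x : L => (x : ℕ → ℤ)) h1
    rw [aeval_eq_sum_range] at h3 ⊢
    simp only [LinearMap.sum_apply, LinearMap.smul_apply, Submodule.coe_sum, Submodule.coe_smul,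
      hpow] at h3 ⊢
    exact h3
  have hirrQ : Irreducible (P.map (Int.castRingHom ℚ)) :=
    (IsPrimitive.Int.irreducible_iff_irreducible_map_cast hprim).1 hP
  have hcop : IsCoprime (P.map (Int.castRingHom ℚ)) (f.map (Int.castRingHom ℚ)) := by
    rw [hirrQ.coprime_iff_not_dvd, ← IsPrimitive.Int.dvd_iff_map_cast_dvd_map_cast _ _ hprim]
    rintro ⟨S, hS⟩
    have h1 : f.leadingCoeff = P.leadingCoeff * S.leadingCoeff := by rw [hS, leadingCoeff_mul]
    rw [hf.leadingCoeff] at h1
    exact hl (IsUnit.of_mul_eq_one _ h1.symm)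
  obtain ⟨A, B, hAB⟩ := hcop.pow_left (m := k + 1)
  have h1 : aeval (sh ℚ) (P.map (Int.castRingHom ℚ) ^ (k + 1)) (fun n => ((u n : ℤ) : ℚ)) = 0 := by
    funext n
    have := act_map (Int.castRingHom ℚ) R u n
    rw [hu, Pi.zero_apply, map_zero, hR, Polynomial.map_pow] at this
    exact this
  have h2 : aeval (sh ℚ) (f.map (Int.castRingHom ℚ)) (fun n => ((u n : ℤ) : ℚ)) = 0 := by
    funext n
    have := act_map (Int.castRingHom ℚ) f u n
    rw [hfu, Pi.zero_apply, map_zero] at this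
    exact this
  have h3 : aeval (sh ℚ) (1 : ℚ[X]) (fun n => ((u n : ℤ) : ℚ)) = 0 := by
    rw [← hAB, map_add, LinearMap.add_apply, act_mul, act_mul, h1, h2, map_zero, map_zero, add_zero]
  rw [map_one] at h3
  funext n
  have h4 : ((u n : ℤ) : ℚ) = 0 := congrFun h3 n
  exact_mod_cast h4

/-- the sum of the absolute values of the coefficients -/
noncomputable def len (P : ℤ[X]) : ℤ := ∑ i ∈ Finset.range (P.natDegree + 1), |P.coeff i|

theorem zero_isolated (P : ℤ[X]) (hP : Irreducible P) (hd : P.natDegree ≠ 0)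
    (hl : ¬ IsUnit P.leadingCoeff) (k : ℕ) (t : ℝ) (ht : t ∈ Spec k P)
    (ht1 : (len (P ^ (k + 1)) : ℝ) * t < 1) : t = 0 := by
  obtain ⟨g, hg, rfl⟩ := ht
  set R : ℤ[X] := P ^ (k + 1) with hR
  set x : ℕ → ℝ := xseq P g with hx
  have hR0 : R ≠ 0 := pow_ne_zero _ hP.ne_zero
  have hlen : (0 : ℝ) < len R := by
    have h1 : (0 : ℤ) < len R := by
      refine Finset.sum_pos' (fun i _ => abs_nonneg _)
        ⟨R.natDegree, Finset.mem_range.2 (Nat.lt_succ_self _), ?_⟩
      exact abs_pos.2 (leadingCoeff_ne_zero.2 hR0)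
    exact_mod_cast h1
  obtain ⟨c, hc1, hc2⟩ := exists_between ((lt_div_iff₀' hlen).2 ht1)
  have hcl : (len R : ℝ) * c < 1 := (lt_div_iff₀' hlen).1 hc2
  have hev : ∀ᶠ n in atTop, distZ (x n) < c :=
    eventually_lt_of_limsup_lt hc1 (isBoundedUnder_of ⟨1 / 2, fun n => distZ_le _⟩)
  obtain ⟨n0, hn0⟩ := eventually_atTop.1 hev
  -- the real sequence is killed by `R`
  have hkC : aeval (sh ℂ) (R.map (Int.castRingHom ℂ)) (cx P g) = 0 := by
    refine cx_kill k P g hg _ fun z hz => ?_
    rw [hR, Polynomial.map_pow]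
    exact pow_dvd_pow_of_dvd (dvd_iff_isRoot.2 ((mem_big P z).1 hz).2.1) _
  have hkR : ∀ n, ∑ i ∈ Finset.range (R.natDegree + 1), (R.coeff i : ℝ) * x (n + i) = 0 := by
    intro n
    have h1 := congrFun hkC n
    rw [act_apply _ (Nat.lt_succ_of_le natDegree_map_le), Pi.zero_apply] at h1
    have h2 : ((∑ i ∈ Finset.range (R.natDegree + 1), (R.coeff i : ℝ) * x (n + i) : ℝ) : ℂ) = 0 := by
      rw [← h1]
      push_cast
      refine Finset.sum_congr rfl fun i _ => ?_
      rw [coeff_map, cx_real k P g hg, eq_intCast]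
    exact_mod_cast h2
  -- the integers vanish
  have hu : (fun n => round (x (n0 + n))) = (0 : ℕ → ℤ) := by
    refine int_zero P hP hd hl k _ ?_
    funext n
    rw [act_apply _ (Nat.lt_succ_self _), Pi.zero_apply]
    have h1 : ((∑ i ∈ Finset.range (R.natDegree + 1), R.coeff i * round (x (n0 + (n + i))) : ℤ) : ℝ) =
        -∑ i ∈ Finset.range (R.natDegree + 1),
          (R.coeff i : ℝ) * (x (n0 + (n + i)) - round (x (n0 + (n + i)))) := by
      have h2 := hkR (n0 + n)
      simp only [mul_sub, Finset.sum_sub_distrib]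
      have h3 : ∑ i ∈ Finset.range (R.natDegree + 1), (R.coeff i : ℝ) * x (n0 + (n + i)) = 0 := by
        rw [← h2]
        refine Finset.sum_congr rfl fun i _ => ?_
        rw [add_assoc]
      rw [h3]
      push_cast
      ring
    have h4 : |((∑ i ∈ Finset.range (R.natDegree + 1), R.coeff i * round (x (n0 + (n + i))) : ℤ) : ℝ)|
        < 1 := by
      rw [h1, abs_neg]
      refine lt_of_le_of_lt ((Finset.abs_sum_le_sum_abs _ _).trans (Finset.sum_le_sum
        (g := fun i => |(R.coeff i : ℝ)| * c) fun i _ => ?_)) ?_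
      · rw [abs_mul]
        exact mul_le_mul_of_nonneg_left (hn0 _ (by omega)).le (abs_nonneg _)
      · rw [← Finset.sum_mul]
        have h5 : ∑ i ∈ Finset.range (R.natDegree + 1), |(R.coeff i : ℝ)| = (len R : ℝ) := by
          rw [len]
          push_cast
          rfl
        rw [h5]
        exact hcl
    have h6 : |∑ i ∈ Finset.range (R.natDegree + 1), R.coeff i * round (x (n0 + (n + i)))| < 1 := by
      exact_mod_cast h4
    exact Int.abs_lt_one_iff.1 h6
  -- the sequence is bounded, so it vanishes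
  have hbd : Bd (fun n => cx P g (n0 + n)) := by
    refine ⟨1, fun n => ?_⟩
    have h1 : round (x (n0 + n)) = 0 := congrFun hu n
    have h2 := distZ_le (x (n0 + n))
    rw [distZ, h1, Int.cast_zero, sub_zero] at h2
    show ‖cx P g (n0 + n)‖ ≤ 1
    rw [cx_real k P g hg, Complex.norm_real, Real.norm_eq_abs]
    linarith
  have hz : (fun n => cx P g (n0 + n)) = 0 := by
    refine bd_prod (k + 1) (bigRoots P) (fun z hz => ((mem_big P z).1 hz).2.2) hbd ?_
    have h1 : aeval (sh ℂ) (∏ z ∈ bigRoots P, (X - C z) ^ (k + 1)) (cx P g) = 0 :=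
      cx_kill k P g hg _ fun z hz => Finset.dvd_prod_of_mem _ hz
    funext n
    have h2 := congrFun h1 (n0 + n)
    rw [act_apply _ (Nat.lt_succ_self _), Pi.zero_apply] at h2 ⊢
    refine Eq.trans (Finset.sum_congr rfl fun i _ => ?_) h2
    rw [add_assoc]
  have hx0 : ∀ n, n0 ≤ n → x n = 0 := by
    intro n hn
    obtain ⟨m, rfl⟩ := Nat.exists_eq_add_of_le hn
    have h1 : cx P g (n0 + m) = 0 := congrFun hz m
    rw [cx_real k P g hg] at h1
    exact_mod_cast h1
  have h7 : limsup (fun n => distZ (x n)) atTop = limsup (fun _ : ℕ => (0 : ℝ)) atTop := by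
    refine limsup_congr (eventually_atTop.2 ⟨n0, fun n hn => ?_⟩)
    rw [hx0 n hn]
    simp [distZ]
  rw [h7, limsup_const]

end Pool.Agent.Helper96.SB
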